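import Pool.Agent.Work.MP_0f91f8_co.SV.All

namespace Pool.Agent.Results.MP_0f91f8_co.BelowHalf

/-- There are `k`, `δ > 0` and `c > 0` such that for every nonempty finite set `F` of positive integers
with `|{n ∈ F : p n ∈ F}| ≥ (1 - δ) |F|` for all primes `p ≤ k` and every `A ⊆ F` with
`36 |A| ≥ 17 |F|` there is a Pythagorean triple `(x, y, z)` with `x, y, z ≤ k` such that `x n`, `y n`,
`z n` are all in `A` for at least `c |F|` elements `n` of `F`. -/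
theorem result : ∃ (k : ℕ) (δ c : ℝ), 0 < δ ∧ 0 < c ∧ ∀ F : Finset ℕ+, F.Nonempty →
    (∀ p : ℕ+, (p : ℕ) ≤ k → (p : ℕ).Prime →
      (1 - δ) * (F.card : ℝ) ≤ ((F.filter fun n => p * n ∈ F).card : ℝ)) →
    ∀ A : Finset ℕ+, A ⊆ F → 17 * F.card ≤ 36 * A.card →
    ∃ x y z : ℕ+, (x : ℕ) ≤ k ∧ (y : ℕ) ≤ k ∧ (z : ℕ) ≤ k ∧ x ^ 2 + y ^ 2 = z ^ 2 ∧
      c * (F.card : ℝ) ≤ ((F.filter fun n => x * n ∈ A ∧ y * n ∈ A ∧ z * n ∈ A).card : ℝ) :=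
  Pool.Agent.F0f91f8.SV.all_ResSV

end Pool.Agent.Results.MP_0f91f8_co.BelowHalf
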