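import Pool.Agent.Work.MP_0f91f8_co.PC.AllR

/-!
# Pythagorean triples for sets which are compact along the primes of sparse windows

Hand-in for MP_0f91f8_co, Q1. The proof is in `Pool/Agent/Work/MP_0f91f8_co/PC/` (composition: `PC/AllR.lean`; statements of the
items with the proof in words: `PC/StmtsC.lean`, `StmtsA.lean`, `StmtsG.lean`, `StmtsV.lean`, `StmtsP.lean`, `StmtsB.lean`,
`StmtsR.lean`).
-/

namespace Pool.Agent.Results.MP_0f91f8_co.CompactPrimes

open Classical in
/-- Let `r` and `ε > 0` be given. There is `R` with the following property. Let `m` be a finitely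
additive probability measure on the sets of positive integers which is invariant under dilations, and
let `A 1, …, A r` be sets of positive integers which are compact along the primes of windows
`(Y, Y ^ R]`: for every `δ > 0` there is `J` such that for arbitrarily large `Y` there is a set `D` of
at most `J` positive integers such that for all primes `p` in `(Y, Y ^ R]`, up to a set of primes with
sum of reciprocals at most `δ`, some `q` in `D` satisfies `m {n | p n ∈ A i ↮ q n ∈ A i} ≤ δ` for all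
`i`. Then there is a Pythagorean triple `(x, y, z)` such that the sum over `i` of the measures of the
sets `{n | x n, y n, z n ∈ A i}` is at least `∑ m (A i) ^ 3 - ε`. -/
theorem result (r : ℕ) (ε : ℝ) (hε : 0 < ε) :
    ∃ R : ℕ, ∀ m : Set ℕ+ → ℝ, (∀ A, 0 ≤ m A) → m Set.univ = 1 →
      (∀ A B : Set ℕ+, Disjoint A B → m (A ∪ B) = m A + m B) →
      (∀ (k : ℕ+) (A : Set ℕ+), m {n | k * n ∈ A} = m A) →
      ∀ A : Fin r → Set ℕ+,
      (∀ δ : ℝ, 0 < δ → ∃ J : ℕ, ∀ Y₀ : ℕ+, ∃ Y ≥ Y₀, ∃ D : Finset ℕ+, D.card ≤ J ∧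
        ∑ p ∈ (Finset.Ioc Y (Y ^ R)).filter (fun p : ℕ+ => (p : ℕ).Prime ∧
          ∀ q ∈ D, ∃ i, δ < m {n | ¬(p * n ∈ A i ↔ q * n ∈ A i)}), 1 / ((p : ℕ) : ℝ) ≤ δ) →
      ∃ x y z : ℕ+, x ^ 2 + y ^ 2 = z ^ 2 ∧
        ∑ i, m (A i) ^ 3 - ε ≤ ∑ i, m {n | x * n ∈ A i ∧ y * n ∈ A i ∧ z * n ∈ A i} :=
  Pool.Agent.F0f91f8.PC.all_FinR r ε hε

end Pool.Agent.Results.MP_0f91f8_co.CompactPrimes
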