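import Pool.Agent.Work.MP_0f91f8_co.KT.Last

namespace Pool.Agent.Results.MP_0f91f8_co.HalfDensity

/-- Let `q, E ≥ 1`, `N ≥ 0`, `L` and `ε > 0` be given, and let `T` be the set of the integers
`c ^ E * m` with `m ≡ 1 (mod q)`. There are `k` and `δ > 0` with the following property. Let
`θ = (θ_1, …, θ_N)` be completely multiplicative functions on the positive integers with values on
the unit circle, let `v` be a function from the positive integers to `[0, 1]` with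
`|v (t n) - v n| ≤ L max_j |θ_j t - 1|` for all `t ∈ T` and all `n`, let `F` be a nonempty finite set
of positive integers with `|{n ∈ F : p n ∈ F}| ≥ (1 - δ) |F|` for all primes `p ≤ k`, and let `A i`
be pairwise disjoint subsets of `F`. Write `v(X)` for the sum of `v` over `X`. Then there is a
Pythagorean triple `(x, y, z)` with `x, y, z ≤ k`, with `x, y, z ∈ T` and `|θ_j - 1| ≤ ε` at `x`, `y`,
`z`, such that
`v(F) v(M) ≥ (3/2) (∑ v(A i)² - min (v(F) (v(F) - v(R)) / 3) (v(F) ∑ v(A i) / 2) - ε |F|²)`, where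
`M` is the set of the `n ∈ F` for which `x n, y n, z n` are in one of the sets `A i`, and `R` is the
set of the `n ∈ F` for which no two of `x n, y n, z n` are in one of the sets `A i`. -/
theorem result (q E N : ℕ) (hq : 0 < q) (hE : 0 < E) (L ε : ℝ) (hε : 0 < ε) :
    ∃ (k : ℕ) (δ : ℝ), 0 < δ ∧
      ∀ (θ : ℕ+ →* (Fin N → Circle)) (v : ℕ+ → ℝ), (∀ n, 0 ≤ v n ∧ v n ≤ 1) →
      (∀ c m n : ℕ+, (m : ℕ) ≡ 1 [MOD q] →
        |v (c ^ E * m * n) - v n| ≤ L * dist (θ (c ^ E * m)) 1) →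
      ∀ F : Finset ℕ+, F.Nonempty →
      (∀ p : ℕ+, (p : ℕ) ≤ k → (p : ℕ).Prime →
        (1 - δ) * (F.card : ℝ) ≤ ((F.filter fun n => p * n ∈ F).card : ℝ)) →
      ∀ (r : ℕ) (A : Fin r → Finset ℕ+), (∀ i, A i ⊆ F) → (∀ i j, i ≠ j → Disjoint (A i) (A j)) →
      ∃ x y z : ℕ+, (x : ℕ) ≤ k ∧ (y : ℕ) ≤ k ∧ (z : ℕ) ≤ k ∧ x ^ 2 + y ^ 2 = z ^ 2 ∧
        (∀ t : ℕ+, t = x ∨ t = y ∨ t = z → dist (θ t) 1 ≤ ε ∧
          ∃ c m : ℕ+, t = c ^ E * m ∧ (m : ℕ) ≡ 1 [MOD q]) ∧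
        3 / 2 * (∑ i, (∑ n ∈ A i, v n) ^ 2 -
          min ((∑ n ∈ F, v n) * ((∑ n ∈ F, v n) -
              ∑ n ∈ F.filter (fun n => ∀ i, ¬ (x * n ∈ A i ∧ y * n ∈ A i) ∧
                ¬ (x * n ∈ A i ∧ z * n ∈ A i) ∧ ¬ (y * n ∈ A i ∧ z * n ∈ A i)), v n) / 3)
            ((∑ n ∈ F, v n) * (∑ i, ∑ n ∈ A i, v n) / 2) -
          ε * (F.card : ℝ) ^ 2) ≤
        (∑ n ∈ F, v n) *
          ∑ n ∈ F.filter (fun n => ∃ i, x * n ∈ A i ∧ y * n ∈ A i ∧ z * n ∈ A i), v n :=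
  Pool.Agent.F0f91f8.KT.all_KTF q E N hq hE L ε hε

end Pool.Agent.Results.MP_0f91f8_co.HalfDensity
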