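import Pool.Agent.Work.MP_0f91f8_co.Lg.All

open Topology

namespace Pool.Agent.Results.MP_0f91f8_co.PISystems

/-- Let `X` be a compact Hausdorff space with continuous maps `T k`, `k ≥ 1`, such that
`T (k m) = T k ∘ T m`.  Let `M` be a closed invariant minimal subset of `X`.  Suppose that `M` is
distal, or that it satisfies Bronstein's condition: a closed invariant set `L` with
`{(x, x) : x ∈ M} ⊆ L ⊆ M × M` which is topologically transitive and in which the minimal points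
are dense is contained in the diagonal.  Let `x₀` be a point of `X` and `A` a set of natural numbers
such that for every open set `V ⊇ M` and every finite set `S` of positive integers there is
`k ≥ 1` with `s k ∈ A` and `T (s k) x₀ ∈ V` for all `s` in `S`.  Then for every open set `U` that
meets `M` the set of all `n` in `A` with `T n x₀` in `U` contains a Pythagorean triple. -/
theorem result {X : Type*} [TopologicalSpace X] [CompactSpace X] [T2Space X]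
    (T : ℕ → X → X) (hTc : ∀ k : ℕ, 0 < k → Continuous (T k))
    (hTm : ∀ k m : ℕ, 0 < k → 0 < m → ∀ x, T (k * m) x = T k (T m x))
    (M : Set X) (hMc : IsClosed M) (hMi : ∀ k : ℕ, 0 < k → ∀ x ∈ M, T k x ∈ M)
    (hMm : ∀ x ∈ M, ∀ y ∈ M, y ∈ closure {z : X | ∃ k : ℕ, 0 < k ∧ z = T k x})
    (hM : (∀ x ∈ M, ∀ y ∈ M, ∀ z : X,
        (z, z) ∈ closure {p : X × X | ∃ k : ℕ, 0 < k ∧ p = (T k x, T k y)} → x = y) ∨
      (∀ L : Set (X × X), IsClosed L → L ⊆ M ×ˢ M → (∀ x ∈ M, (x, x) ∈ L) →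
        (∀ k : ℕ, 0 < k → ∀ p ∈ L, (T k p.1, T k p.2) ∈ L) →
        (∀ V W : Set (X × X), IsOpen V → IsOpen W → (L ∩ V).Nonempty → (L ∩ W).Nonempty →
          ∃ k : ℕ, 0 < k ∧ ∃ p ∈ L ∩ V, (T k p.1, T k p.2) ∈ W) →
        (∀ V : Set (X × X), IsOpen V → (L ∩ V).Nonempty → ∃ p ∈ L ∩ V,
          ∀ q ∈ closure {q : X × X | ∃ k : ℕ, 0 < k ∧ q = (T k p.1, T k p.2)},
            p ∈ closure {r : X × X | ∃ k : ℕ, 0 < k ∧ r = (T k q.1, T k q.2)}) →
        ∀ p ∈ L, p.1 = p.2))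
    (x₀ : X) (A : Set ℕ)
    (hA : ∀ V : Set X, IsOpen V → M ⊆ V → ∀ S : Finset ℕ, (∀ s ∈ S, 0 < s) →
      ∃ k : ℕ, 0 < k ∧ ∀ s ∈ S, s * k ∈ A ∧ T (s * k) x₀ ∈ V)
    (U : Set X) (hU : IsOpen U) (hUM : (U ∩ M).Nonempty) :
    ∃ x y z : ℕ, 0 < x ∧ 0 < y ∧ 0 < z ∧ x ^ 2 + y ^ 2 = z ^ 2 ∧ x ∈ A ∧ y ∈ A ∧ z ∈ A ∧
      T x x₀ ∈ U ∧ T y x₀ ∈ U ∧ T z x₀ ∈ U :=
  Pool.Agent.Work.MP_0f91f8_co.Lg.pi_result T hTc hTm M hMc hMi hMm hM x₀ A hA U hU hUM

end Pool.Agent.Results.MP_0f91f8_co.PISystems
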